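import Mathlib
import Pool.Agent.helper25.B2.GDefs
import Pool.Agent.helper15.B2.T8a
import Pool.Agent.helper46.B2.T8c

/-! # MP_b2b189_gt, module CET: estimate of `g(lam, T)` near a triple root -/

set_option autoImplicit false

namespace Pool.Agent.helper68.B2

open scoped ContDiff Topology Matrix
open Matrix Set Filter

theorem CET_cube {L : M3} {c : ℝ} (h : RR3 L c c c) : (L - c • (1 : M3)) ^ 3 = 0 := by
  have h1 : L.charpoly = (Polynomial.X - Polynomial.C c) ^ 3 := by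
    apply Polynomial.funext
    intro t
    rw [Matrix.eval_charpoly]
    have h2 := h t
    have h3 : (Matrix.scalar (Fin 3)) t - L = t • (1 : M3) - L := by
      rw [Matrix.scalar_apply, ← Matrix.smul_one_eq_diagonal]
    rw [h3, h2]
    simp
    ring
  have h4 := Matrix.aeval_self_charpoly L
  rw [h1] at h4
  simp only [map_pow, map_sub, Polynomial.aeval_X, Polynomial.aeval_C] at h4
  rw [← h4]
  congr 2
  rw [Algebra.algebraMap_eq_smul_one]

theorem CET_root {L : M3} {a b c : ℝ} (h : RR3 L a b c) : (L - a • (1 : M3)).det = 0 := by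
  have h1 := h a
  rw [sub_self, zero_mul, zero_mul] at h1
  have h2 : L - a • (1 : M3) = -(a • (1 : M3) - L) := by rw [neg_sub]
  rw [h2, Matrix.det_neg, h1, mul_zero]

namespace Srt

variable {S : Geo} (R : Srt S)

/-- comparison of the global root with the local one -/
theorem CET_cmp {x : E4} (hx : x ≠ 0) {A : V3}
    (h1 : S.K (R.μ x) x = vecMulVec (S.K (R.μ x) x *ᵥ A) (S.G x *ᵥ (S.K (R.μ x) x *ᵥ A)))
    (h2 : S.g x (S.K (R.μ x) x *ᵥ A) A = 1) :
    |S.g x (S.lam x) (R.T x)| = |S.g x (S.lam x) (S.K (R.μ x) x *ᵥ A)| := by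
  have hsym := S.symm x hx
  have hdet : IsUnit (S.G x).det := isUnit_iff_ne_zero.2 (S.det_neg x hx).ne
  have hK : S.K (R.μ x) x = R.sg • vecMulVec (R.T x) (S.G x *ᵥ R.T x) := by
    have e1 : S.K (R.μ x) x = S.Ku (R.μ x) x * S.G x := by
      show _ = S.K (R.μ x) x * (S.G x)⁻¹ * S.G x
      rw [Matrix.mul_assoc, Matrix.nonsing_inv_mul _ hdet, Matrix.mul_one]
    rw [e1, R.KT x hx, Matrix.smul_mul, Matrix.vecMulVec_mul]
    congr 2
    rw [← Matrix.mulVec_transpose, hsym]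
  set V := S.K (R.μ x) x *ᵥ A with hV
  set β := (S.G x *ᵥ R.T x) ⬝ᵥ A with hβ
  have hVT : V = (R.sg * β) • R.T x := by
    rw [hV, hK, Matrix.smul_mulVec, Matrix.vecMulVec_mulVec]
    ext i
    simp [hβ]
    ring
  have hVne : V ≠ 0 := by
    intro h0
    rw [h0] at h2
    simp [Geo.g, bil] at h2
  have hKV : vecMulVec V (S.G x *ᵥ V) = (R.sg * β) ^ 2 • vecMulVec (R.T x) (S.G x *ᵥ R.T x) := by
    rw [hVT, Matrix.mulVec_smul, Matrix.smul_vecMulVec, Matrix.vecMulVec_smul, smul_smul]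
    congr 1
    ring
  have hM : vecMulVec (R.T x) (S.G x *ᵥ R.T x) ≠ 0 := by
    intro h0
    rw [h0, smul_zero] at hK
    rw [hV, hK] at hVne
    simp at hVne
  have hsq : (R.sg * β) ^ 2 = R.sg := by
    have h3 : (R.sg * β) ^ 2 • vecMulVec (R.T x) (S.G x *ᵥ R.T x) =
        R.sg • vecMulVec (R.T x) (S.G x *ᵥ R.T x) := by
      rw [← hKV, ← hK]; exact h1.symm
    exact smul_left_injective ℝ hM h3
  have habs : |R.sg * β| = 1 := by
    rcases R.hsg with h | h
    · rw [h] at hsq ⊢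
      rcases (show 1 * β = 1 ∨ 1 * β = -1 from by
          have h5 : (1 * β - 1) * (1 * β + 1) = 0 := by linear_combination hsq
          rcases mul_eq_zero.mp h5 with h6 | h6
          · left; linarith
          · right; linarith) with h' | h'
      · rw [h', abs_one]
      · rw [h', abs_neg, abs_one]
    · exfalso
      rw [h] at hsq
      nlinarith [sq_nonneg (-1 * β)]
  rw [hVT]
  have : S.g x (S.lam x) ((R.sg * β) • R.T x) = (R.sg * β) * S.g x (S.lam x) (R.T x) := by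
    unfold Geo.g bil
    rw [Matrix.mulVec_smul, dotProduct_smul, smul_eq_mul]
  rw [this, abs_mul, habs, one_mul]

theorem CE_triple {p : E4} (hp : p ≠ 0) (h : R.μ p = R.ρ p) :
    ∃ C : ℝ, ∀ᶠ x in 𝓝 p, |S.g x (S.lam x) (R.T x)| ≤ C * (R.ρ x - R.μ x) := by
  have hν : R.ν p = R.μ p := le_antisymm (h ▸ R.le₂ p hp) (R.le₁ p hp)
  have hf := R.fac p hp
  rw [hν, ← h] at hf
  have h3 := CET_cube hf
  have h2 : (S.L p - R.μ p • (1 : M3)) ^ 2 ≠ 0 := by
    rw [sq]
    exact R.nosq p hp (R.μ p)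
  obtain ⟨W, A, hW, hpW, hA, hs, hc⟩ := J3_exists S hp h3 h2
  obtain ⟨C, hC⟩ := J3_estimate S (fun x hx => ⟨_, _, _, R.fac x hx⟩) hp hW hpW hA hs hc
  refine ⟨C, ?_⟩
  filter_upwards [hC, hW.isOpen.mem_nhds hpW] with x hx hxW
  have hx0 : x ≠ 0 := by
    rintro rfl
    exact hW.zero hxW
  obtain ⟨h1, h2⟩ := J3_adj S hx0 (hc x hxW) (CET_root (R.fac x hx0))
  rw [R.CET_cmp hx0 h1 h2]
  exact hx _ _ _ (R.fac x hx0) (R.le₁ x hx0) (R.le₂ x hx0)

end Srt

end Pool.Agent.helper68.B2
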